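import Pool.Agent.Helper43.AX.St

/-!
# Project AX, module FR: the second kill relation
-/

set_option autoImplicit false

namespace Pool.Agent.Helper30.AX

open Pool.Agent.Helper43.AX
open Pool.Agent.Helper43.GD (cj)

/-- The second kill relation. -/
theorem hFR (hPT : StPT) (hVC : StVC) (hXP : StXP) : StFR := by
  intro p q G _ a b t l L _ x E σ hcx
  obtain ⟨-, -, -, -, hcomm⟩ := hVC p q G a b t l L x E σ hcx
  obtain ⟨h1, h2, h3, h4, h5, h6⟩ := hPT p q G a b t l L x E σ hcx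
  have hXPj := hXP (q ^ 2) L (x : L) σ hcx.rd.xm hcx.rd.sx
  obtain ⟨hx1, -, hx3, hx4⟩ := hXPj p
  have hadd := hcx.rd.add
  have hone := hcx.rd.one
  have hE0 : E 0 = 1 := by
    have h := hadd 0 0
    rw [add_zero] at h
    exact left_eq_mul.mp h
  have hneg : ∀ c, E (-c) = (E c)⁻¹ := by
    intro c
    rw [eq_inv_iff_mul_eq_one, ← hadd, neg_add_cancel, hE0]
  obtain ⟨v, hv⟩ : ∃ v, v = a * b * a := ⟨_, rfl⟩
  obtain ⟨N, hN⟩ : ∃ N : ℕ, N = q ^ p := ⟨_, rfl⟩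
  obtain ⟨m, hm⟩ : ∃ m : ℕ, m = q ^ 2 := ⟨_, rfl⟩
  have hvv : v * v = l ^ p := by rw [hv]; exact hcx.rel.vv
  unfold InK
  rw [← hv] at h1 h2 h3 h4 h5 h6 ⊢
  rw [← hN] at h5 h6 ⊢
  rw [← hm] at hx1 hx4 ⊢
  obtain ⟨Q, hQ⟩ : ∃ Q : Subgroup G, Q = P t l E := ⟨_, rfl⟩
  rw [← hQ] at h1 h2 h3 h4 h5 h6 ⊢
  -- cosets
  obtain ⟨C, hC⟩ : ∃ C : G → G ⧸ Q, C = QuotientGroup.mk := ⟨_, rfl⟩
  have hCiff : ∀ g h : G, C g = C h ↔ g⁻¹ * h ∈ Q := by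
    intro g h
    rw [hC]
    exact QuotientGroup.eq
  have hmul : ∀ k g h : G, C g = C h → C (k * g) = C (k * h) := by
    intro k g h hgh
    rw [hCiff] at hgh ⊢
    have : (k * g)⁻¹ * (k * h) = g⁻¹ * h := by group
    rw [this]
    exact hgh
  -- `x ^ (N ^ 2) = x + p`
  have hNm : N ^ 2 = m ^ p := by rw [hN, hm, ← pow_mul, ← pow_mul, mul_comm]
  have hxN : ((x ^ ((N ^ 2 : ℕ) : ℤ) : Lˣ) : L) = (x : L) + (p : L) := by
    rw [zpow_natCast, Units.val_pow_eq_pow_val, hNm, hx1]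
  have hxm : (x : L) ^ m = (x : L) + 1 := by rw [hm]; exact hcx.rd.xm
  have hxmz : ((x ^ ((m : ℕ) : ℤ) : Lˣ) : L) = (x : L) + 1 := by
    rw [zpow_natCast, Units.val_pow_eq_pow_val, hxm]
  have hxm1 : ((x ^ ((m : ℤ) - 1) : Lˣ) : L) = 1 + ((x⁻¹ : Lˣ) : L) := by
    rw [zpow_sub, zpow_one, Units.val_mul, hxmz, add_mul, Units.mul_inv, one_mul]
  -- iterates of the inverse of `σ`
  have hsadd : ∀ c d : L, (σ.symm^[p]) (c + d) = (σ.symm^[p]) c + (σ.symm^[p]) d :=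
    fun c d => iterate_map_add σ.symm p c d
  have hsmul : ∀ c d : L, (σ.symm^[p]) (c * d) = (σ.symm^[p]) c * (σ.symm^[p]) d :=
    fun c d => iterate_map_mul σ.symm p c d
  have hsone : (σ.symm^[p]) 1 = 1 := iterate_map_one σ.symm p
  have hsneg : ∀ c : L, (σ.symm^[p]) (-c) = -(σ.symm^[p]) c :=
    fun c => iterate_map_neg σ.symm p c
  have hsnat : ∀ n : ℕ, (σ.symm^[p]) (n : L) = (n : L) := by
    intro n
    induction n with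
    | zero => rw [Nat.cast_zero]; exact iterate_map_zero σ.symm p
    | succ n ih => rw [Nat.cast_succ, hsadd, ih, hsone]
  have hsx : (σ.symm^[p]) ((x : L) + (p : L)) = (x : L) := by
    rw [hsadd, hx3, hsnat, sub_add_cancel]
  -- `b = E (-1) v E (-1)`
  have ha : E (-1) = a⁻¹ := by rw [hneg, hone]
  have hb : b = E (-1) * v * E (-1) := by
    rw [ha, hv]
    group
  have hcj0 : cj b t 0 = b := by
    unfold cj
    simp
  have hvl : v = v⁻¹ * l ^ p := by rw [← hvv]; group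
  -- `v E(c) v P = v⁻¹ E(σ^(-p) c) v P`
  have hkey : ∀ c : L, C (v * (E c * v)) = C (v⁻¹ * (E ((σ.symm^[p]) c) * v)) := by
    intro c
    have e1 : v * (E c * v) = v⁻¹ * (l ^ p * (E c * v)) := by
      rw [← mul_assoc v⁻¹ (l ^ p), ← hvl]
    rw [e1]
    exact hmul _ _ _ ((hCiff _ _).2 (h4 c))
  -- first product
  have hA : C (b * cj b t ((N ^ 2 : ℕ) : ℤ)) =
      C (E (-1 + ((x ^ (-(N : ℤ) * (m : ℤ)) : Lˣ) : L)) * v) := by
    have e1 : C (b * cj b t ((N ^ 2 : ℕ) : ℤ)) =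
        C (b * (E (-((x : L) + (p : L))) * v)) := by
      have := (hCiff _ _).2 (h1 ((N ^ 2 : ℕ) : ℤ))
      rw [hxN] at this
      exact hmul _ _ _ this
    have e2 : b * (E (-((x : L) + (p : L))) * v) =
        E (-1) * (v * (E (-((x : L) + (p : L) + 1)) * v)) := by
      have : E (-((x : L) + (p : L) + 1)) = E (-1) * E (-((x : L) + (p : L))) := by
        rw [← hadd]
        congr 1
        ring
      rw [this]
      nth_rw 1 [hb]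
      simp only [mul_assoc]
    have e3 : (σ.symm^[p]) (-((x : L) + (p : L) + 1)) = -((x ^ ((m : ℕ) : ℤ) : Lˣ) : L) := by
      rw [hsneg, hsadd, hsx, hsone, hxmz]
    have e4 := (hCiff _ _).2 (h6 ((m : ℕ) : ℤ))
    have e5 : C (E (-1) * (v * (E (-((x : L) + (p : L) + 1)) * v))) =
        C (E (-1) * (E (((x ^ (-(N : ℤ) * (m : ℤ)) : Lˣ) : L)) * v)) := by
      refine hmul _ _ _ ?_
      rw [hkey, e3]
      exact e4
    rw [e1, e2, e5, ← mul_assoc, ← hadd]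
  -- second product
  have hxNi : (σ.symm^[p]) (((x ^ (-((N ^ 2 : ℕ) : ℤ)) : Lˣ) : L)) = ((x⁻¹ : Lˣ) : L) := by
    have e1 : ((x ^ (-((N ^ 2 : ℕ) : ℤ)) : Lˣ) : L) * ((x : L) + (p : L)) = 1 := by
      rw [← hxN, ← Units.val_mul, ← zpow_add, neg_add_cancel, zpow_zero, Units.val_one]
    have e2 : (σ.symm^[p]) (((x ^ (-((N ^ 2 : ℕ) : ℤ)) : Lˣ) : L)) * (x : L) = 1 := by
      rw [← hsx, ← hsmul, e1, hsone]
    calc (σ.symm^[p]) (((x ^ (-((N ^ 2 : ℕ) : ℤ)) : Lˣ) : L))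
        = (σ.symm^[p]) (((x ^ (-((N ^ 2 : ℕ) : ℤ)) : Lˣ) : L)) * ((x : L) * ((x⁻¹ : Lˣ) : L)) := by
          rw [Units.mul_inv, mul_one]
      _ = ((x⁻¹ : Lˣ) : L) := by rw [← mul_assoc, e2, one_mul]
  have hB : C (cj b t ((N ^ 2 : ℕ) : ℤ) * b) =
      C (E (((x : L) + (p : L)) *
        (-1 + ((x ^ (-(N : ℤ) * ((m : ℤ) - 1)) : Lˣ) : L))) * v) := by
    have e1 : C (cj b t ((N ^ 2 : ℕ) : ℤ) * b) =
        C (cj b t ((N ^ 2 : ℕ) : ℤ) * (E (-1) * v)) := by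
      have := (hCiff _ _).2 (h1 0)
      rw [hcj0, zpow_zero, Units.val_one] at this
      exact hmul _ _ _ this
    have e2 : cj b t ((N ^ 2 : ℕ) : ℤ) * (E (-1) * v) =
        (t ^ (-((N ^ 2 : ℕ) : ℤ)) * b) * (t ^ (((N ^ 2 : ℕ) : ℤ)) * (E (-1) * v)) := by
      unfold cj
      simp only [mul_assoc]
    have e3 : C ((t ^ (-((N ^ 2 : ℕ) : ℤ)) * b) * (t ^ (((N ^ 2 : ℕ) : ℤ)) * (E (-1) * v))) =
        C ((t ^ (-((N ^ 2 : ℕ) : ℤ)) * b) *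
          (E (((x ^ (-((N ^ 2 : ℕ) : ℤ)) : Lˣ) : L) * -1) * v)) :=
      hmul _ _ _ ((hCiff _ _).2 (h3 ((N ^ 2 : ℕ) : ℤ) (-1)))
    have e4 : (t ^ (-((N ^ 2 : ℕ) : ℤ)) * b) *
          (E (((x ^ (-((N ^ 2 : ℕ) : ℤ)) : Lˣ) : L) * -1) * v) =
        (t ^ (-((N ^ 2 : ℕ) : ℤ)) * E (-1)) *
          (v * (E (-(1 + ((x ^ (-((N ^ 2 : ℕ) : ℤ)) : Lˣ) : L))) * v)) := by
      have : E (-(1 + ((x ^ (-((N ^ 2 : ℕ) : ℤ)) : Lˣ) : L))) =
          E (-1) * E (((x ^ (-((N ^ 2 : ℕ) : ℤ)) : Lˣ) : L) * -1) := by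
        rw [← hadd]
        congr 1
        ring
      rw [this]
      nth_rw 1 [hb]
      simp only [mul_assoc]
    have e5 : (σ.symm^[p]) (-(1 + ((x ^ (-((N ^ 2 : ℕ) : ℤ)) : Lˣ) : L))) =
        -((x ^ ((m : ℤ) - 1) : Lˣ) : L) := by
      rw [hsneg, hsadd, hsone, hxNi, hxm1]
    have e6 := (hCiff _ _).2 (h6 ((m : ℤ) - 1))
    have e7 : C ((t ^ (-((N ^ 2 : ℕ) : ℤ)) * E (-1)) *
          (v * (E (-(1 + ((x ^ (-((N ^ 2 : ℕ) : ℤ)) : Lˣ) : L))) * v))) =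
        C ((t ^ (-((N ^ 2 : ℕ) : ℤ)) * E (-1)) *
          (E (((x ^ (-(N : ℤ) * ((m : ℤ) - 1)) : Lˣ) : L)) * v)) := by
      refine hmul _ _ _ ?_
      rw [hkey, e5]
      exact e6
    have e8 : (t ^ (-((N ^ 2 : ℕ) : ℤ)) * E (-1)) *
          (E (((x ^ (-(N : ℤ) * ((m : ℤ) - 1)) : Lˣ) : L)) * v) =
        t ^ (-((N ^ 2 : ℕ) : ℤ)) *
          (E (-1 + ((x ^ (-(N : ℤ) * ((m : ℤ) - 1)) : Lˣ) : L)) * v) := by
      rw [hadd]
      simp only [mul_assoc]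
    have e9 := (hCiff _ _).2 (h3 (-((N ^ 2 : ℕ) : ℤ))
      (-1 + ((x ^ (-(N : ℤ) * ((m : ℤ) - 1)) : Lˣ) : L)))
    rw [neg_neg, hxN] at e9
    rw [e1, e2, e3, e4, e7, e8]
    exact e9
  have hAB : C (E (((x : L) + (p : L)) *
        (-1 + ((x ^ (-(N : ℤ) * ((m : ℤ) - 1)) : Lˣ) : L))) * v) =
      C (E (-1 + ((x ^ (-(N : ℤ) * (m : ℤ)) : Lˣ) : L)) * v) := by
    rw [← hA, ← hB]
    have := hcomm 0 ((N ^ 2 : ℕ) : ℤ)
    rw [hcj0] at this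
    rw [this]
  rw [hCiff] at hAB
  have hfin : (E (((x : L) + (p : L)) *
        (-1 + ((x ^ (-(N : ℤ) * ((m : ℤ) - 1)) : Lˣ) : L))) * v)⁻¹ *
      (E (-1 + ((x ^ (-(N : ℤ) * (m : ℤ)) : Lˣ) : L)) * v) =
      v⁻¹ * E (-1 + ((x ^ (-(N : ℤ) * (m : ℤ)) : Lˣ) : L) + ((x : L) + (p : L)) -
        ((x : L) + (p : L)) * ((x ^ (-(N : ℤ) * ((m : ℤ) - 1)) : Lˣ) : L)) * v := by
    have : E (-1 + ((x ^ (-(N : ℤ) * (m : ℤ)) : Lˣ) : L) + ((x : L) + (p : L)) -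
        ((x : L) + (p : L)) * ((x ^ (-(N : ℤ) * ((m : ℤ) - 1)) : Lˣ) : L)) =
        (E (((x : L) + (p : L)) *
        (-1 + ((x ^ (-(N : ℤ) * ((m : ℤ) - 1)) : Lˣ) : L))))⁻¹ *
        E (-1 + ((x ^ (-(N : ℤ) * (m : ℤ)) : Lˣ) : L)) := by
      rw [← hneg, ← hadd]
      congr 1
      ring
    rw [this, mul_inv_rev]
    simp only [mul_assoc]
  rw [hfin] at hAB
  exact hAB

end Pool.Agent.Helper30.AX
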